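import Pool.Agent.Lib_MP_f96441_co.Basic

/-!
# Inscribed affine images of finite configurations: most convex bodies have none

The space of convex bodies with non-empty interior, and an arbitrary linear family of
configurations with fewer parameters than points.
-/

set_option autoImplicit false

open Metric Set Filter Topology

namespace Pool.Agent.Lib_MP_f96441_ins

open Pool.Agent.Lib_MP_f96441_co

/-- The space `𝒦^d` of the convex bodies of `ℝ^d`: compact convex sets with non-empty interior,
with the Hausdorff metric (Mathlib's `ConvexBody` only asks that the set is not empty). -/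
abbrev Bodies (d : ℕ) : Type :=
  {K : ConvexBody (EuclideanSpace ℝ (Fin d)) //
    (interior (K : Set (EuclideanSpace ℝ (Fin d)))).Nonempty}

section

variable {d : ℕ}

/-- A body which is close to a body with interior points has interior points. -/
lemma interior_of_near {K₀ K' : ConvexBody (EuclideanSpace ℝ (Fin d))}
    {p₀ : EuclideanSpace ℝ (Fin d)} {r : ℝ}
    (hball : ball p₀ r ⊆ (K₀ : Set (EuclideanSpace ℝ (Fin d)))) (hdist : dist K' K₀ < r) :
    (interior (K' : Set (EuclideanSpace ℝ (Fin d)))).Nonempty := by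
  have hδ : 0 ≤ dist K' K₀ := dist_nonneg
  have hsub : ball p₀ (r - dist K' K₀) ⊆ (K' : Set (EuclideanSpace ℝ (Fin d))) := by
    intro z hz
    by_contra hzK
    obtain ⟨q, hq, hqd, hin⟩ := exists_proj K' z
    have hne : z ≠ q := fun h => hzK (h ▸ hq)
    have hpos : 0 < ‖z - q‖ := norm_pos_iff.2 (sub_ne_zero.2 hne)
    set p := z + (dist K' K₀ / ‖z - q‖) • (z - q) with hp
    have hpz : dist p z = dist K' K₀ := by
      rw [dist_eq_norm, hp, add_sub_cancel_left, norm_smul, norm_div, norm_norm,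
        Real.norm_eq_abs, abs_of_nonneg hδ, div_mul_cancel₀ _ hpos.ne']
    have hpK : p ∈ (K₀ : Set (EuclideanSpace ℝ (Fin d))) := by
      apply hball
      rw [mem_ball] at hz ⊢
      calc dist p p₀ ≤ dist p z + dist z p₀ := dist_triangle _ _ _
        _ < dist K' K₀ + (r - dist K' K₀) := by rw [hpz]; linarith
        _ = r := by ring
    obtain ⟨y, hy, hyd, -⟩ := exists_proj K' p
    have hyle : dist p y ≤ dist K' K₀ := by
      rw [← hyd]
      have h1 : infDist p (K' : Set (EuclideanSpace ℝ (Fin d))) ≤ dist K₀ K' := by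
        rw [← ConvexBody.hausdorffDist_coe]
        exact infDist_le_hausdorffDist_of_mem hpK ConvexBody.hausdorffEDist_ne_top
      rwa [dist_comm] at h1
    have h1 : inner ℝ (z - q) (p - y) ≤ ‖z - q‖ * ‖p - y‖ := real_inner_le_norm _ _
    have h2 : ‖p - y‖ ≤ dist K' K₀ := by rwa [← dist_eq_norm]
    have h3 : inner ℝ (z - q) (y - q) ≤ 0 := hin y hy
    have h4 : inner ℝ (z - q) (p - y) =
        ‖z - q‖ ^ 2 + dist K' K₀ * ‖z - q‖ - inner ℝ (z - q) (y - q) := by
      have e : p - y = (z - q) + (dist K' K₀ / ‖z - q‖) • (z - q) - (y - q) := by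
        rw [hp]; abel
      rw [e, inner_sub_right, inner_add_right, real_inner_smul_right,
        real_inner_self_eq_norm_sq]
      field_simp
    have h5 : ‖z - q‖ * ‖p - y‖ ≤ ‖z - q‖ * dist K' K₀ :=
      mul_le_mul_of_nonneg_left h2 hpos.le
    nlinarith [sq_pos_of_pos hpos]
  refine ⟨p₀, interior_mono hsub ?_⟩
  rw [isOpen_ball.interior_eq]
  exact mem_ball_self (by linarith)

variable {ι κ V : Type*} [Fintype ι] [Fintype κ] [AddCommGroup V] [Module ℝ V]
  [FiniteDimensional ℝ V]

/-- the values of the functionals `u (j i)` at the points of a configuration -/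
noncomputable def valueMap (Λ : V →ₗ[ℝ] (ι → EuclideanSpace ℝ (Fin d)))
    (u : κ → EuclideanSpace ℝ (Fin d)) (j : ι → κ) : V →ₗ[ℝ] (ι → ℝ) where
  toFun q i := inner ℝ (u (j i)) (Λ q i)
  map_add' q q' := by
    ext i
    simp [inner_add_right]
  map_smul' c q := by
    ext i
    simp [real_inner_smul_right]

/-- Generic right hand sides. -/
lemma exists_generic' (Λ : V →ₗ[ℝ] (ι → EuclideanSpace ℝ (Fin d)))
    (hd : Module.finrank ℝ V < Fintype.card ι)
    (u : κ → EuclideanSpace ℝ (Fin d)) (l r : κ → ℝ) (hlr : ∀ j, l j < r j) :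
    ∃ b : κ → ℝ, (∀ j, b j ∈ Ioo (l j) (r j)) ∧
      ∀ j : ι → κ, Function.Injective j →
        ∀ q : V, ¬ ∀ i, inner ℝ (u (j i)) (Λ q i) = b (j i) := by
  classical
  set M : {j : ι → κ // Function.Injective j} → Submodule ℝ (κ → ℝ) := fun j =>
    (LinearMap.range (valueMap Λ u j.1)).comap (LinearMap.funLeft ℝ ℝ j.1) with hM
  have hMtop : ∀ j, M j ≠ ⊤ := by
    intro j htop
    have hsurj : Function.Surjective (LinearMap.funLeft ℝ ℝ j.1) :=
      LinearMap.funLeft_surjective_of_injective ℝ ℝ j.1 j.2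
    have hr : LinearMap.range (valueMap Λ u j.1) = ⊤ := by
      rw [eq_top_iff]
      intro y _
      obtain ⟨z, rfl⟩ := hsurj y
      have : z ∈ M j := by rw [htop]; trivial
      exact this
    have h1 := LinearMap.finrank_range_le (valueMap Λ u j.1)
    rw [hr, finrank_top] at h1
    simp only [Module.finrank_fintype_fun_eq_card] at h1
    omega
  have hnull : MeasureTheory.volume (⋃ j, (M j : Set (κ → ℝ))) = 0 := by
    rw [MeasureTheory.measure_iUnion_null_iff]
    intro j
    exact MeasureTheory.Measure.addHaar_submodule _ _ (hMtop j)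
  set U : Set (κ → ℝ) := Set.pi univ (fun j => Ioo (l j) (r j)) with hU
  have hUo : IsOpen U := isOpen_set_pi finite_univ (fun _ _ => isOpen_Ioo)
  have hUne : U.Nonempty := by
    refine ⟨fun j => (l j + r j) / 2, ?_⟩
    rw [hU, mem_univ_pi]
    intro j
    have := hlr j
    constructor <;> linarith
  have hUpos : 0 < MeasureTheory.volume U := hUo.measure_pos _ hUne
  have hnot : ¬ U ⊆ ⋃ j, (M j : Set (κ → ℝ)) := by
    intro hsub
    have := MeasureTheory.measure_mono (μ := MeasureTheory.volume) hsub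
    rw [hnull] at this
    exact absurd this (not_le.2 hUpos)
  obtain ⟨b, hbU, hbM⟩ := Set.not_subset.1 hnot
  refine ⟨b, ?_, ?_⟩
  · rw [hU, mem_univ_pi] at hbU
    exact hbU
  · intro j hj q hall
    apply hbM
    rw [mem_iUnion]
    refine ⟨⟨j, hj⟩, ?_⟩
    show LinearMap.funLeft ℝ ℝ j b ∈ LinearMap.range (valueMap Λ u j)
    refine ⟨q, ?_⟩
    ext i
    rw [LinearMap.funLeft_apply]
    exact hall i

/-- Configurations of the family whose points have pairwise distances at least `δ`. -/
def CfgL (Λ : V →ₗ[ℝ] (ι → EuclideanSpace ℝ (Fin d))) (δ : ℝ) :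
    Set (ι → EuclideanSpace ℝ (Fin d)) :=
  {p | p ∈ LinearMap.range Λ ∧ ∀ s t, s ≠ t → δ ≤ dist (p s) (p t)}

omit [FiniteDimensional ℝ V] in
lemma isClosed_CfgL (Λ : V →ₗ[ℝ] (ι → EuclideanSpace ℝ (Fin d))) (δ : ℝ) :
    IsClosed (CfgL Λ δ) := by
  apply IsClosed.and
  · exact Submodule.closed_of_finiteDimensional (LinearMap.range Λ)
  · rw [show {p : ι → EuclideanSpace ℝ (Fin d) |
        ∀ s t, s ≠ t → δ ≤ dist (p s) (p t)} =
        ⋂ s, ⋂ t, ⋂ (_ : s ≠ t), {p | δ ≤ dist (p s) (p t)} by
      ext p; simp]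
    refine isClosed_iInter fun s => isClosed_iInter fun t => isClosed_iInter fun _ => ?_
    exact isClosed_le (by fun_prop) (by fun_prop)

/-- bodies with an inscribed (in the sense of supporting points) configuration of the family whose
points are pairwise at distance at least `δ`. -/
def BadL (Λ : V →ₗ[ℝ] (ι → EuclideanSpace ℝ (Fin d))) (δ : ℝ) :
    Set (ConvexBody (EuclideanSpace ℝ (Fin d))) :=
  {K | ∃ p ∈ CfgL Λ δ, ∀ s, Supp (K : Set (EuclideanSpace ℝ (Fin d))) (p s)}

omit [FiniteDimensional ℝ V] in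
lemma isClosed_BadL (Λ : V →ₗ[ℝ] (ι → EuclideanSpace ℝ (Fin d))) (δ : ℝ) :
    IsClosed (BadL Λ δ) := isClosed_config (isClosed_CfgL Λ δ)

lemma exists_goodL (Λ : V →ₗ[ℝ] (ι → EuclideanSpace ℝ (Fin d)))
    (hd : Module.finrank ℝ V < Fintype.card ι) (K₀ : ConvexBody (EuclideanSpace ℝ (Fin d)))
    {ε δ : ℝ} (hε : 0 < ε) (hδ : 0 < δ) :
    ∃ K' : ConvexBody (EuclideanSpace ℝ (Fin d)), dist K' K₀ < ε ∧ K' ∉ BadL Λ δ := by
  classical
  obtain ⟨K₁, hK₁, hstrict⟩ := exists_strict K₀ (half_pos hε)
  have hK₁s : K₁ ∉ SegBad d δ := by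
    rintro ⟨p, ⟨hp2, hpd⟩, hps⟩
    have hne : p 0 ≠ p 1 := by
      intro h
      rw [h, dist_self] at hpd
      linarith
    have := hstrict (p 0) (hps 0).1 (p 1) (hps 1).1 hne
    rw [← hp2] at this
    exact not_supp_of_interior this (hps 2)
  obtain ⟨ρ, hρ, hball⟩ := Metric.isOpen_iff.1 (isClosed_SegBad (d := d) δ).isOpen_compl K₁ hK₁s
  set τ : ℝ := min ρ (ε / 2) / 2 with hτ
  have hτ0 : 0 < τ := by
    have : 0 < min ρ (ε / 2) := lt_min hρ (by linarith)
    linarith
  have hτρ : τ < ρ := by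
    have h1 : min ρ (ε / 2) ≤ ρ := min_le_left _ _
    have : 0 < min ρ (ε / 2) := lt_min hρ (by linarith)
    linarith
  have hτε : τ < ε / 2 := by
    have h1 : min ρ (ε / 2) ≤ ε / 2 := min_le_right _ _
    have : 0 < min ρ (ε / 2) := lt_min hρ (by linarith)
    linarith
  obtain ⟨t, u, l, r, hu, hlr, hP⟩ := exists_polytope K₁ hτ0
  obtain ⟨b, hb, hbgen⟩ := exists_generic' (κ := t) Λ hd (fun j => u j) (fun j => l j)
    (fun j => r j) (fun j => hlr j j.2)
  set b' : EuclideanSpace ℝ (Fin d) → ℝ := fun j => if h : j ∈ t then b ⟨j, h⟩ else 0 with hb'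
  have hb'val : ∀ j (h : j ∈ t), b' j = b ⟨j, h⟩ := by
    intro j h
    rw [hb']
    simp [h]
  obtain ⟨hKP, hPK⟩ := hP b' (fun j hj => by rw [hb'val j hj]; exact hb ⟨j, hj⟩)
  set P : Set (EuclideanSpace ℝ (Fin d)) := {x | ∀ j ∈ t, inner ℝ (u j) x ≤ b' j} with hPdef
  have hmemP : ∀ x, x ∈ P ↔ ∀ j ∈ t, inner ℝ (u j) x ≤ b' j := fun x => Iff.rfl
  have hPconv : Convex ℝ P := by
    intro x hx y hy a c ha hc hac
    rw [hmemP] at hx hy ⊢
    intro j hj
    rw [inner_add_right, real_inner_smul_right, real_inner_smul_right]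
    calc a * inner ℝ (u j) x + c * inner ℝ (u j) y ≤ a * b' j + c * b' j :=
          add_le_add (mul_le_mul_of_nonneg_left (hx j hj) ha)
            (mul_le_mul_of_nonneg_left (hy j hj) hc)
      _ = b' j := by rw [← add_mul, hac, one_mul]
  have hPclosed : IsClosed P := by
    have : P = ⋂ j ∈ t, {x | inner ℝ (u j) x ≤ b' j} := by
      ext x
      simp [hmemP]
    rw [this]
    refine isClosed_biInter fun j _ => ?_
    exact isClosed_le (by fun_prop) continuous_const
  have hPsub : P ⊆ cthickening τ (K₁ : Set (EuclideanSpace ℝ (Fin d))) := by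
    intro x hx
    have h1 := hPK hx
    rw [Set.mem_ofPred_eq] at h1
    obtain ⟨q, hq, hqd, -⟩ := exists_proj K₁ x
    exact mem_cthickening_of_dist_le x q τ _ hq (by rw [← hqd]; exact h1.le)
  have hPcomp : IsCompact P := K₁.isCompact.cthickening.of_isClosed_subset hPclosed hPsub
  set K' : ConvexBody (EuclideanSpace ℝ (Fin d)) := ⟨P, hPconv, hPcomp, K₁.nonempty.mono hKP⟩
    with hK'
  have hcoe : (K' : Set (EuclideanSpace ℝ (Fin d))) = P := rfl
  have hdist : dist K' K₁ ≤ τ := by
    rw [← ConvexBody.hausdorffDist_coe, hcoe]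
    apply hausdorffDist_le_of_infDist hτ0.le
    · intro x hx
      have h1 := hPK hx
      rw [Set.mem_ofPred_eq] at h1
      exact h1.le
    · intro x hx
      rw [infDist_zero_of_mem (hKP hx)]
      exact hτ0.le
  have hK's : K' ∉ SegBad d δ := by
    apply hball
    rw [mem_ball]
    linarith
  refine ⟨K', ?_, ?_⟩
  · have := dist_triangle K' K₁ K₀
    linarith
  · rintro ⟨p, ⟨⟨q, hq⟩, hpd⟩, hps⟩
    have hfacet : ∀ s, ∃ j : t, inner ℝ (u j) (p s) = b j := by
      intro s
      by_contra hcon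
      push Not at hcon
      have hlt : ∀ j ∈ t, inner ℝ (u j) (p s) < b' j := by
        intro j hj
        apply lt_of_le_of_ne
        · have h1 := (hps s).1
          rw [hcoe, hmemP] at h1
          exact h1 j hj
        · rw [hb'val j hj]
          exact hcon ⟨j, hj⟩
      apply not_supp_of_interior _ (hps s)
      rw [hcoe]
      have hopen : IsOpen (⋂ j ∈ t, {x | inner ℝ (u j) x < b' j}) := by
        apply isOpen_biInter_finset
        intro j _
        exact isOpen_lt (by fun_prop) continuous_const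
      apply interior_maximal _ hopen
      · simp only [mem_iInter]
        intro j hj
        exact hlt j hj
      · intro y hy
        rw [hmemP]
        intro j hj
        simp only [mem_iInter] at hy
        exact le_of_lt (hy j hj)
    choose j hj using hfacet
    have hinj : Function.Injective j := by
      intro s s' hss
      by_contra hne
      apply hK's
      have hPle : ∀ y ∈ P, inner ℝ (u (j s)) y ≤ b (j s) := by
        intro y hy
        rw [hmemP] at hy
        have := hy (j s) (j s).2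
        rwa [hb'val _ (j s).2] at this
      have hs1 : inner ℝ (u (j s)) (p s) = b (j s) := hj s
      have hs2 : inner ℝ (u (j s)) (p s') = b (j s) := by rw [hss]; exact hj s'
      have hmem1 : p s ∈ P := (hps s).1
      have hmem2 : p s' ∈ P := (hps s').1
      refine ⟨![p s, p s', (1 / 2 : ℝ) • p s + (1 / 2 : ℝ) • p s'], ⟨?_, ?_⟩, ?_⟩
      · simp
      · simpa using hpd s s' hne
      · have hu' := hu (j s) (j s).2
        intro i
        rw [hcoe]
        fin_cases i
        · exact supp_of_facet hmem1 hu' hs1 hPle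
        · exact supp_of_facet hmem2 hu' hs2 hPle
        · have hmid : inner ℝ (u (j s)) ((1 / 2 : ℝ) • p s + (1 / 2 : ℝ) • p s') = b (j s) := by
            rw [inner_add_right, real_inner_smul_right, real_inner_smul_right, hs1, hs2]
            ring
          exact supp_of_facet (hPconv hmem1 hmem2 (by norm_num) (by norm_num) (by norm_num))
            hu' hmid hPle
    apply hbgen j hinj q
    intro i
    rw [hq]
    exact hj i

/-- **Linear families of configurations with fewer parameters than points.** -/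
theorem meagre_of_linear (Λ : V →ₗ[ℝ] (ι → EuclideanSpace ℝ (Fin d)))
    (hd : Module.finrank ℝ V < Fintype.card ι) :
    IsMeagre {K : Bodies d | ∃ q : V, Function.Injective (Λ q) ∧
      ∀ i, Λ q i ∈ frontier (K.1 : Set (EuclideanSpace ℝ (Fin d)))} := by
  have hres : (⋂ n : ℕ, (Subtype.val ⁻¹' (BadL Λ (1 / ((n : ℝ) + 1))) : Set (Bodies d))ᶜ) ∈
      residual (Bodies d) := by
    rw [countable_iInter_mem]
    intro n
    refine residual_of_dense_open
      ((isClosed_BadL Λ _).preimage continuous_subtype_val).isOpen_compl ?_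
    rw [Metric.dense_iff]
    rintro ⟨K₀, hK₀⟩ ε hε
    obtain ⟨p₀, hp₀⟩ := hK₀
    rw [mem_interior_iff_mem_nhds, Metric.mem_nhds_iff] at hp₀
    obtain ⟨r, hr, hball⟩ := hp₀
    obtain ⟨K', h1, h2⟩ := exists_goodL Λ hd K₀ (lt_min hε hr)
      (show (0 : ℝ) < 1 / ((n : ℝ) + 1) by positivity)
    have hK' := interior_of_near hball (h1.trans_le (min_le_right _ _))
    exact ⟨⟨K', hK'⟩, by rw [mem_ball]; exact h1.trans_le (min_le_left _ _), h2⟩
  apply Filter.mem_of_superset hres
  intro K hK
  rw [Set.mem_compl_iff]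
  rintro ⟨q, hq, hfr⟩
  have hev : ∀ᶠ n : ℕ in atTop, ∀ s t : ι, s ≠ t →
      1 / ((n : ℝ) + 1) ≤ dist (Λ q s) (Λ q t) := by
    rw [Filter.eventually_all]
    intro s
    rw [Filter.eventually_all]
    intro t
    by_cases hst : s = t
    · simp [hst]
    · have h1 : ∀ᶠ n : ℕ in atTop, 1 / ((n : ℝ) + 1) < dist (Λ q s) (Λ q t) :=
        tendsto_one_div_add_atTop_nhds_zero_nat.eventually_lt_const
          (dist_pos.2 fun h => hst (hq h))
      filter_upwards [h1] with n hn _
      exact hn.le
  obtain ⟨n, hn⟩ := hev.exists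
  rw [mem_iInter] at hK
  apply hK n
  exact ⟨Λ q, ⟨⟨q, rfl⟩, hn⟩, fun s => supp_of_frontier (hfr s)⟩

end

/-- the points `x + ∑ i, w i • v i`, `w ∈ S` -/
noncomputable def affMap (d : ℕ) {k : ℕ} (S : Finset (Fin k → ℝ)) :
    (EuclideanSpace ℝ (Fin d) × (Fin k → EuclideanSpace ℝ (Fin d))) →ₗ[ℝ]
      (S → EuclideanSpace ℝ (Fin d)) where
  toFun q w := q.1 + ∑ i, (w : Fin k → ℝ) i • q.2 i
  map_add' q q' := by
    ext1 w
    simp only [Prod.fst_add, Prod.snd_add, Pi.add_apply, smul_add, Finset.sum_add_distrib]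
    abel
  map_smul' c q := by
    ext1 w
    simp only [Prod.smul_fst, Prod.smul_snd, Pi.smul_apply, RingHom.id_apply, smul_add,
      Finset.smul_sum]
    congr 1
    exact Finset.sum_congr rfl fun i _ => smul_comm _ _ _

lemma affine_eq {d k : ℕ} (f : (Fin k → ℝ) →ᵃ[ℝ] EuclideanSpace ℝ (Fin d)) (w : Fin k → ℝ) :
    f w = f 0 + ∑ i, w i • f.linear (Pi.single i 1) := by
  have h1 : f w = f.linear (w - 0) + f 0 := by
    have := f.linearMap_vsub w 0
    rw [vsub_eq_sub, vsub_eq_sub] at this
    rw [this]; abel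
  rw [h1, sub_zero, add_comm]
  congr 1
  conv_lhs => rw [← Finset.univ_sum_single w]
  rw [map_sum]
  refine Finset.sum_congr rfl fun i _ => ?_
  rw [← map_smul]
  congr 1
  ext j
  by_cases h : j = i
  · subst h; simp
  · simp [h]

/-- **Affine images of finite sets**: most convex bodies of `ℝ^d` have no inscribed injective
affine image of a set of more than `d (k + 1)` points of `ℝ^k`. -/
theorem meagre_affine (d k : ℕ) (S : Finset (Fin k → ℝ)) (hS : d * (k + 1) < S.card) :
    IsMeagre {K : Bodies d | ∃ f : (Fin k → ℝ) →ᵃ[ℝ] EuclideanSpace ℝ (Fin d),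
      Set.InjOn f S ∧ ∀ w ∈ S, f w ∈ frontier (K.1 : Set (EuclideanSpace ℝ (Fin d)))} := by
  have hd : Module.finrank ℝ (EuclideanSpace ℝ (Fin d) × (Fin k → EuclideanSpace ℝ (Fin d))) <
      Fintype.card S := by
    simp only [Fintype.card_coe, Module.finrank_prod, finrank_euclideanSpace,
      Module.finrank_pi_fintype, Finset.sum_const, Finset.card_univ, smul_eq_mul,
      Fintype.card_fin]
    nlinarith
  refine (meagre_of_linear (affMap d S) hd).mono ?_
  rintro K ⟨f, hinj, hfr⟩
  have key : ∀ w : S, affMap d S (f 0, fun i => f.linear (Pi.single i 1)) w = f w := by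
    intro w
    rw [affine_eq f w]
    rfl
  refine ⟨(f 0, fun i => f.linear (Pi.single i 1)), ?_, ?_⟩
  · intro w w' h
    rw [key, key] at h
    exact Subtype.ext (hinj w.2 w'.2 h)
  · intro w
    rw [key]
    exact hfr w w.2

end Pool.Agent.Lib_MP_f96441_ins
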